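import Pool.Agent.Z15P.T2h62.H15.LOC

/-!
Every curve on `f(x) + g(y) = 0` is equivalent up to torsion to a sum of lines through points `(z, 0)`.
-/

set_option autoImplicit false

open FF FF.PP MvPolynomial Pool.Agent.Z15P.Z15.H Pool.Agent.Z15P.Z15.H.Stm

namespace Pool.Agent.Z15P.T2h62.H15

/-! ### Finite extensions of function fields -/

theorem isFF_finite {k E E2 : Type} [Field k] [Field E] [Field E2] [Algebra k E] [Algebra k E2]
    [Algebra E E2] [IsScalarTower k E E2] [h : IsFF k E] [FiniteDimensional E E2] : IsFF k E2 := by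
  constructor
  · have h1 := h.ess
    exact Algebra.EssFiniteType.comp k E E2
  · have h1 := h.trdeg
    have h2 : Algebra.trdeg k E + Algebra.trdeg E E2 = Algebra.trdeg k E2 := trdeg_add_eq k E
    rw [← h2, h1, trdeg_eq_zero, add_zero]

section

variable {k κ μ : Type} [Field k]

theorem aeval_jn {f : MvPolynomial κ k} {g : MvPolynomial μ k} {A : Type} [CommRing A] [Algebra k A]
    (v : κ ⊕ μ → A) : aeval v (jn f g) = aeval (fun i => v (Sum.inl i)) f + aeval (fun i => v (Sum.inr i)) g := by
  unfold jn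
  rw [map_add, aeval_rename, aeval_rename]
  rfl

theorem jn_hom {f : MvPolynomial κ k} {g : MvPolynomial μ k} {d : ℕ} (hf : f.IsHomogeneous d)
    (hg : g.IsHomogeneous d) : (jn f g).IsHomogeneous d :=
  hf.rename_isHomogeneous.add hg.rename_isHomogeneous

/-- the lines of the form required -/
def gd [Fintype κ] [Fintype μ] (f : MvPolynomial κ k) (g : MvPolynomial μ k) :
    Set (Set (MvPolynomial (κ ⊕ μ) k) →₀ ℤ) :=
  {c | ∃ (z x : κ → k) (y : μ → k), LinearIndependent k ![Sum.elim z (0 : μ → k), Sum.elim x y] ∧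
    (∀ α β : k, eval (fun i => α * Sum.elim z (0 : μ → k) i + β * Sum.elim x y i) (jn f g) = 0) ∧
    c = line (Sum.elim z 0) (Sum.elim x y)}

theorem gd_sum [Fintype κ] [Fintype μ] (f : MvPolynomial κ k) (g : MvPolynomial μ k)
    {c : Set (MvPolynomial (κ ⊕ μ) k) →₀ ℤ} (hc : c ∈ AddSubgroup.closure (gd f g)) :
    ∃ (n : ℕ) (m : Fin n → ℤ) (z x : Fin n → κ → k) (y : Fin n → μ → k),
      (∀ j, LinearIndependent k ![Sum.elim (z j) (0 : μ → k), Sum.elim (x j) (y j)]) ∧
      (∀ j, ∀ α β : k, eval (fun i => α * Sum.elim (z j) (0 : μ → k) i +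
        β * Sum.elim (x j) (y j) i) (jn f g) = 0) ∧
      c = ∑ j, m j • line (Sum.elim (z j) 0) (Sum.elim (x j) (y j)) := by
  induction hc using AddSubgroup.closure_induction with
  | mem c hc =>
    obtain ⟨z, x, y, h1, h2, h3⟩ := hc
    exact ⟨1, fun _ => 1, fun _ => z, fun _ => x, fun _ => y, fun _ => h1, fun _ => h2, by simp [h3]⟩
  | zero => exact ⟨0, Fin.elim0, Fin.elim0, Fin.elim0, Fin.elim0, fun j => j.elim0, fun j => j.elim0, by simp⟩
  | add c c' _ _ ih ih' =>
    obtain ⟨n, m, z, x, y, h1, h2, h3⟩ := ih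
    obtain ⟨n', m', z', x', y', h1', h2', h3'⟩ := ih'
    refine ⟨n + n', Fin.append m m', Fin.append z z', Fin.append x x', Fin.append y y', fun j => ?_,
      fun j => ?_, ?_⟩
    · induction j using Fin.addCases with
      | left j => simpa only [Fin.append_left] using h1 j
      | right j => simpa only [Fin.append_right] using h1' j
    · induction j using Fin.addCases with
      | left j => simpa only [Fin.append_left] using h2 j
      | right j => simpa only [Fin.append_right] using h2' j
    · rw [Fin.sum_univ_add, h3, h3']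
      simp only [Fin.append_left, Fin.append_right]
  | neg c _ ih =>
    obtain ⟨n, m, z, x, y, h1, h2, h3⟩ := ih
    refine ⟨n, fun j => -m j, z, x, y, h1, h2, ?_⟩
    rw [h3]
    simp only [neg_smul, Finset.sum_neg_distrib]

end

section

variable {k : Type} [Field k] [IsAlgClosed k] [Infinite k] {κ μ : Type} [Fintype κ] [Fintype μ]

omit [IsAlgClosed k] [Infinite k] [Fintype μ] [Fintype κ] in
/-- the identity `f(α x + β z) = α ^ d f(x)` over a subfield -/
theorem exp_descend {f : MvPolynomial κ k} {d : ℕ} {L E2 : Type} [Field L] [Algebra k L] [Field E2] [Algebra k E2]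
    [Algebra E2 L] [IsScalarTower k E2 L] (x z : κ → E2) (c : ℕ → L)
    (hexp : ∀ (A : Type) [CommRing A] [Algebra k A] [Algebra L A] [IsScalarTower k L A] (α β : A),
        aeval (fun i => α * algebraMap L A (algebraMap E2 L (x i)) + β * algebraMap L A (algebraMap E2 L (z i))) f =
          ∑ j ∈ Finset.range (d + 1), algebraMap L A (c j) * α ^ (d - j) * β ^ j)
    (hJ : ∀ j ∈ Finset.Icc 1 d, c j = 0) (M : Type) [Field M] [Algebra k M] [Algebra E2 M]
    [IsScalarTower k E2 M] (α β : M) :
    aeval (fun i => α * algebraMap E2 M (x i) + β * algebraMap E2 M (z i)) f =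
      α ^ d * algebraMap E2 M (aeval x f) := by
  have hsum : ∀ (A : Type) [CommRing A] [Algebra L A] (α β : A),
      ∑ j ∈ Finset.range (d + 1), algebraMap L A (c j) * α ^ (d - j) * β ^ j = algebraMap L A (c 0) * α ^ d := by
    intro A _ _ α β
    rw [Finset.sum_eq_single 0]
    · rw [Nat.sub_zero, pow_zero, mul_one]
    · intro j hj hj0
      rw [Finset.mem_range] at hj
      rw [hJ j (Finset.mem_Icc.2 ⟨by omega, by omega⟩), map_zero, zero_mul, zero_mul]
    · intro h
      exact absurd (Finset.mem_range.2 (Nat.succ_pos d)) h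
  have hc0 : c 0 = algebraMap E2 L (aeval x f) := by
    have h1 := hexp L 1 0
    rw [hsum] at h1
    simp only [one_mul, zero_mul, add_zero, one_pow, mul_one, Algebra.algebraMap_self, RingHom.id_apply] at h1
    rw [← h1]
    exact (comp_aeval_apply x (IsScalarTower.toAlgHom k E2 L) f).symm
  -- the identity over `E2`
  have hid : aeval (fun i => X 0 * C (x i) + X 1 * C (z i)) f =
      (C (aeval x f) * X 0 ^ d : MvPolynomial (Fin 2) E2) := by
    apply MvPolynomial.map_injective (algebraMap E2 L) (algebraMap E2 L).injective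
    have h1 := comp_aeval_apply (fun i => (X 0 * C (x i) + X 1 * C (z i) : MvPolynomial (Fin 2) E2))
      (MvPolynomial.mapAlgHom (IsScalarTower.toAlgHom k E2 L)) f
    refine h1.trans ?_
    have h2 : (fun i => (MvPolynomial.mapAlgHom (IsScalarTower.toAlgHom k E2 L))
        (X 0 * C (x i) + X 1 * C (z i) : MvPolynomial (Fin 2) E2)) =
        fun i => X 0 * algebraMap L (MvPolynomial (Fin 2) L) (algebraMap E2 L (x i)) +
          X 1 * algebraMap L (MvPolynomial (Fin 2) L) (algebraMap E2 L (z i)) := by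
      funext i
      simp only [map_add, map_mul, MvPolynomial.mapAlgHom_apply, MvPolynomial.map_X,
        MvPolynomial.map_C, algebraMap_eq]
      rfl
    rw [h2, hexp (MvPolynomial (Fin 2) L) (X 0) (X 1), hsum, hc0]
    simp only [map_mul, map_pow, map_X, map_C, algebraMap_eq]
  have h3 := congrArg (((MvPolynomial.aeval ![α, β] : MvPolynomial (Fin 2) E2 →ₐ[E2] M).restrictScalars k)) hid
  rw [comp_aeval_apply] at h3
  have h4 : (fun i => ((MvPolynomial.aeval ![α, β] : MvPolynomial (Fin 2) E2 →ₐ[E2] M).restrictScalars k)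
      (X 0 * C (x i) + X 1 * C (z i))) = fun i => α * algebraMap E2 M (x i) + β * algebraMap E2 M (z i) := by
    funext i
    simp only [AlgHom.restrictScalars_apply, map_add, map_mul, aeval_X, aeval_C, Matrix.cons_val_zero,
      Matrix.cons_val_one]
  rw [h4] at h3
  rw [h3]
  simp only [AlgHom.restrictScalars_apply, map_mul, map_pow, aeval_X, aeval_C, Matrix.cons_val_zero]
  exact mul_comm _ _

/-- limits of lines through `(z, 0)` -/
theorem lim_good {f : MvPolynomial κ k} {g : MvPolynomial μ k} {d : ℕ} (hf : f.IsHomogeneous d)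
    (hg : g.IsHomogeneous d) {E : Type} [Field E] [Algebra k E] [IsFF k E] {t : Place k E}
    {A B : κ ⊕ μ → E} {a b : κ ⊕ μ → k} (hlim : IsLim t A B a b) (hV : Vanish (jn f g) A B)
    {z : κ → E} (hz : z ≠ 0) {c c' : E} (hc : ∀ i, c * A i + c' * B i = Sum.elim z (0 : μ → E) i) :
    line a b ∈ gd f g := by
  obtain ⟨j, hj, hr⟩ := exists_prim t hz
  set w : κ ⊕ μ → k := Sum.elim (fun i => ev t ((z j)⁻¹ * z i)) 0 with hw
  have hmem : w ∈ Submodule.span k {a, b} := by
    refine lim_mem (c := (z j)⁻¹ * c) (c' := (z j)⁻¹ * c') hlim (fun i => ?_)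
    have h1 : (z j)⁻¹ * c * A i + (z j)⁻¹ * c' * B i = (z j)⁻¹ * Sum.elim z (0 : μ → E) i := by
      rw [← hc i]
      ring
    rw [h1]
    rcases i with i | i
    · exact ⟨hr i, (ev_spec t _).symm⟩
    · simp only [Sum.elim_inr, Pi.zero_apply, mul_zero, hw]
      exact ⟨t.reg_zero, by rw [t.red_zero, map_zero]⟩
  have hw0 : w (Sum.inl j) = 1 := by
    simp only [hw, Sum.elim_inl, inv_mul_cancel₀ hj, ev_one]
  -- a second vector
  have hli := hlim.1
  have hex : ∃ v, v ∈ Submodule.span k {a, b} ∧ LinearIndependent k ![w, v] := by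
    have ha : a ∈ Submodule.span k {a, b} := Submodule.subset_span (by simp)
    have hb : b ∈ Submodule.span k {a, b} := Submodule.subset_span (by simp)
    by_cases h1 : LinearIndependent k ![w, a]
    · exact ⟨a, ha, h1⟩
    by_cases h2 : LinearIndependent k ![w, b]
    · exact ⟨b, hb, h2⟩
    exfalso
    have e1 : ∀ v : κ ⊕ μ → k, ¬ LinearIndependent k ![w, v] → v = v (Sum.inl j) • w := by
      intro v hv
      by_contra hne
      apply hv
      rw [li_iff]
      intro α β h0
      by_cases hβ : β = 0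
      · subst hβ
        rw [zero_smul, add_zero] at h0
        have := congrFun h0 (Sum.inl j)
        rw [Pi.smul_apply, hw0, smul_eq_mul, mul_one] at this
        exact ⟨this, rfl⟩
      · exfalso
        apply hne
        have h3 := congrFun h0 (Sum.inl j)
        rw [Pi.add_apply, Pi.smul_apply, hw0, smul_eq_mul, mul_one, Pi.smul_apply, smul_eq_mul,
          Pi.zero_apply] at h3
        have h4 : α = -(β * v (Sum.inl j)) := by linear_combination h3
        funext i
        have h5 := congrFun h0 i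
        rw [Pi.add_apply, Pi.smul_apply, Pi.smul_apply, smul_eq_mul, smul_eq_mul, Pi.zero_apply, h4] at h5
        rw [Pi.smul_apply, smul_eq_mul]
        have h6 : β * (v i - v (Sum.inl j) * w i) = 0 := by linear_combination h5
        exact sub_eq_zero.1 ((mul_eq_zero.1 h6).resolve_left hβ)
    have ea := e1 a h1
    have eb := e1 b h2
    have h3 := (li_iff.1 hli) (b (Sum.inl j)) (-(a (Sum.inl j))) (by
      conv_lhs => rw [ea, eb]
      rw [smul_smul, smul_smul, ← add_smul]
      simp only [Pi.smul_apply, hw0, smul_eq_mul, mul_one]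
      rw [show b (Sum.inl j) * a (Sum.inl j) + -a (Sum.inl j) * b (Sum.inl j) = 0 by ring, zero_smul])
    have h4 : a = 0 := by
      rw [ea, neg_eq_zero.1 h3.2, zero_smul]
    exact one_ne_zero ((li_iff.1 hli) 1 0 (by rw [h4]; simp)).1
  obtain ⟨v, hv, hwv⟩ := hex
  have hve : Sum.elim (fun i => v (Sum.inl i)) (fun i => v (Sum.inr i)) = v := by
    funext i
    rcases i with i | i <;> rfl
  refine ⟨fun i => ev t ((z j)⁻¹ * z i), fun i => v (Sum.inl i), fun i => v (Sum.inr i), ?_, ?_, ?_⟩
  · rw [hve]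
    exact hwv
  · rw [hve]
    intro α β
    rw [Submodule.mem_span_pair] at hmem hv
    obtain ⟨p, q, hpq⟩ := hmem
    obtain ⟨r, s, hrs⟩ := hv
    have h1 := lim_vanish (jn_hom hf hg) hlim (fun s => hV E s) (α * p + β * r) (α * q + β * s)
    have h2 : (fun i => (α * p + β * r) * a i + (α * q + β * s) * b i) = fun i => α * w i + β * v i := by
      funext i
      rw [← hpq, ← hrs]
      simp only [Pi.add_apply, Pi.smul_apply, smul_eq_mul]
      ring
    rwa [h2] at h1
  · rw [hve]
    exact (line_eq_of_mem hmem hv hwv).symm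

end

/-- TB -/
theorem t_TBi : T_TBi := by
  intro hDX hCYC hEXP _ _ _ k _ _ _ κ μ _ _ d hd hκ hμ f g hf hg E _ _ _ P hP hFP
  classical
  -- a direction
  obtain ⟨z, c, hz, -, hexp, hJ⟩ := hEXP k (AlgebraicClosure E) κ d f hf
    (fun i => algebraMap E (AlgebraicClosure E) (P (Sum.inl i))) Finset.univ (Finset.Icc 1 d) (by simp)
    (by rw [Nat.card_Icc, Finset.card_univ]; omega)
  -- a point of `g = 0`
  obtain ⟨y1, c', hy1, -, hexp', hJ'⟩ := hEXP k k μ d g hg 0 Finset.univ {d} (by simp; omega)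
    (by rw [Finset.card_singleton, Finset.card_univ]; omega)
  have hgy : aeval y1 g = 0 := by
    have h1 := hexp' k 0 1
    rw [Finset.sum_eq_single d] at h1
    · rw [hJ' d (Finset.mem_singleton_self d)] at h1
      simpa using h1
    · intro j hj hjd
      rw [Finset.mem_range] at hj
      rw [zero_pow (by omega : d - j ≠ 0), mul_zero, zero_mul]
    · intro h
      exact absurd (Finset.mem_range.2 (Nat.lt_succ_self d)) h
  -- the field of definition
  let E2 : IntermediateField E (AlgebraicClosure E) := IntermediateField.adjoin E (Set.range z)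
  have hfin : FiniteDimensional E E2 := by
    apply IntermediateField.finiteDimensional_adjoin
    intro x _
    exact (Algebra.IsAlgebraic.isAlgebraic x).isIntegral
  have hFF : IsFF k E2 := isFF_finite (E := E)
  have hst : IsScalarTower k E2 (AlgebraicClosure E) := IsScalarTower.of_algebraMap_eq fun _ => rfl
  let z2 : κ → E2 := fun i => ⟨z i, IntermediateField.subset_adjoin _ _ ⟨i, rfl⟩⟩
  have hz2 : z2 ≠ 0 := by
    intro h0
    apply hz
    funext i
    exact congrArg Subtype.val (congrFun h0 i)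
  obtain ⟨P2, hP2⟩ : ∃ P2 : κ ⊕ μ → E2, P2 = fun i => algebraMap E E2 (P i) := ⟨_, rfl⟩
  obtain ⟨Z2, hZ2⟩ : ∃ Z2 : κ ⊕ μ → E2, Z2 = Sum.elim z2 0 := ⟨_, rfl⟩
  obtain ⟨Y2, hY2⟩ : ∃ Y2 : κ ⊕ μ → E2, Y2 = fun i => algebraMap k E2 ((Sum.elim 0 y1 : κ ⊕ μ → k) i) :=
    ⟨_, rfl⟩
  have hpoly := fun (M : Type) [Field M] [Algebra k M] [Algebra E2 M] [IsScalarTower k E2 M] (α β : M) =>
    exp_descend (k := k) (L := AlgebraicClosure E) (E2 := E2) (fun i => P2 (Sum.inl i)) z2 c
    (by
      intro A _ _ _ _ α β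
      have h1 := hexp A α β
      rw [← h1]
      congr 2
      funext i
      rw [hP2]
      rfl) hJ M α β
  have hFP2 : aeval (fun i => P2 (Sum.inl i)) f + aeval (fun i => P2 (Sum.inr i)) g = 0 := by
    have h1 := congrArg (algebraMap E E2) hFP
    rw [map_zero, aeval_jn, map_add] at h1
    rw [← h1, hP2]
    congr 1
    · exact (comp_aeval_apply _ (IsScalarTower.toAlgHom k E E2) f).symm
    · exact (comp_aeval_apply _ (IsScalarTower.toAlgHom k E E2) g).symm
  have hfz : ∀ (M : Type) [Field M] [Algebra k M] [Algebra E2 M] [IsScalarTower k E2 M] (β : M),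
      aeval (fun i => β * algebraMap E2 M (z2 i)) f = 0 := by
    intro M _ _ _ _ β
    have h1 := hpoly M 0 β
    rw [zero_pow (by omega), zero_mul] at h1
    rw [← h1]
    congr 2
    funext i
    ring
  -- the two families of lines
  have hV1 : Vanish (jn f g) P2 Z2 := by
    intro M _ _ _ _ s
    rw [aeval_jn]
    have h1 := hpoly M 1 s
    rw [one_pow, one_mul] at h1
    have h2 : (fun i => algebraMap E2 M (P2 (Sum.inl i)) + s * algebraMap E2 M (Z2 (Sum.inl i))) =
        fun i => 1 * algebraMap E2 M (P2 (Sum.inl i)) + s * algebraMap E2 M (z2 i) := by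
      funext i
      rw [hZ2, one_mul]
      rfl
    have h3 : (fun i => algebraMap E2 M (P2 (Sum.inr i)) + s * algebraMap E2 M (Z2 (Sum.inr i))) =
        fun i => algebraMap E2 M (P2 (Sum.inr i)) := by
      funext i
      rw [hZ2]
      simp
    have h4 : aeval (fun i => algebraMap E2 M (P2 (Sum.inr i))) g =
        algebraMap E2 M (aeval (fun i => P2 (Sum.inr i)) g) :=
      (comp_aeval_apply _ (IsScalarTower.toAlgHom k E2 M) g).symm
    rw [h2, h3, h1, h4, ← map_add, hFP2, map_zero]
  have hV2 : Vanish (jn f g) Z2 Y2 := by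
    intro M _ _ _ _ s
    rw [aeval_jn]
    have h2 : (fun i => algebraMap E2 M (Z2 (Sum.inl i)) + s * algebraMap E2 M (Y2 (Sum.inl i))) =
        fun i => 1 * algebraMap E2 M (z2 i) := by
      funext i
      rw [hZ2, hY2]
      simp
    have h3 : (fun i => algebraMap E2 M (Z2 (Sum.inr i)) + s * algebraMap E2 M (Y2 (Sum.inr i))) =
        fun i => s * algebraMap k M (y1 i) := by
      funext i
      rw [hZ2, hY2]
      simp [← IsScalarTower.algebraMap_apply k E2 M]
    have h4 : aeval (fun i => algebraMap k M (y1 i)) g = algebraMap k M (aeval y1 g) :=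
      (comp_aeval_apply _ (IsScalarTower.toAlgHom k k M) g).symm
    rw [h2, h3, hfz, aeval_smul hg, h4, hgy, map_zero, mul_zero, add_zero]
  obtain ⟨j0, hj0⟩ : ∃ j, z2 j ≠ 0 := by
    by_contra h
    push Not at h
    exact hz2 (funext h)
  obtain ⟨l0, hl0⟩ : ∃ l, y1 l ≠ 0 := by
    by_contra h
    push Not at h
    exact hy1 (funext h)
  have hli2 : LinearIndependent E2 ![Z2, Y2] := by
    refine li_of_minor (i := Sum.inl j0) (j := Sum.inr l0) ?_
    rw [hZ2, hY2]
    simp [hj0, hl0]
  -- the second family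
  obtain ⟨S2, n2, a2, b2, hlim2, hrat2⟩ := hDX k (κ ⊕ μ) E2 (jn f g) Z2 Y2 hli2 hV2
  have hcY : cyc k Y2 = 0 := by
    rw [hY2]
    exact (hCYC k (κ ⊕ μ) E2).2.2.2.1 hFF _
  rw [hcY, sub_zero] at hrat2
  have hc2 : ∑ t ∈ S2, n2 t • line (a2 t) (b2 t) ∈ AddSubgroup.closure (gd f g) := by
    refine sum_mem fun t _ => zsmul_mem (AddSubgroup.subset_closure ?_) _
    refine lim_good hf hg (hlim2 t) hV2 hz2 (c := 1) (c' := 0) (fun i => ?_)
    rw [hZ2]
    ring
  -- it remains to compare `P` and `Z`
  have hcP : cyc k P2 = Module.finrank E E2 • cyc k P := by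
    rw [hP2]
    exact (hCYC k (κ ⊕ μ) E).2.2.1 E2 P
  suffices hmain : ∃ c1 ∈ AddSubgroup.closure (gd f g), cyc k P2 - cyc k Z2 + c1 ∈ Rat (jn f g) by
    obtain ⟨c1, hc1, hr1⟩ := hmain
    obtain ⟨n, m, z', x', y', h1, h2, h3⟩ := gd_sum f g (neg_mem (add_mem hc1 hc2))
    refine ⟨Module.finrank E E2, n, m, z', x', y', Module.finrank_pos, h1, h2, ?_⟩
    rw [← h3, ← hcP]
    have h4 := add_mem hr1 hrat2
    have h5 : cyc k P2 - cyc k Z2 + c1 + (cyc k Z2 + ∑ t ∈ S2, n2 t • line (a2 t) (b2 t)) =
        cyc k P2 - -(c1 + ∑ t ∈ S2, n2 t • line (a2 t) (b2 t)) := by abel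
    rwa [h5] at h4
  by_cases hli1 : LinearIndependent E2 ![P2, Z2]
  · obtain ⟨S1, n1, a1, b1, hlim1, hrat1⟩ := hDX k (κ ⊕ μ) E2 (jn f g) P2 Z2 hli1 hV1
    refine ⟨_, ?_, hrat1⟩
    refine sum_mem fun t _ => zsmul_mem (AddSubgroup.subset_closure ?_) _
    refine lim_good hf hg (hlim1 t) hV1 hz2 (c := 0) (c' := 1) (fun i => ?_)
    rw [hZ2]
    ring
  · refine ⟨0, zero_mem _, ?_⟩
    have hP2ne : P2 ≠ 0 := by
      intro h0
      apply hP
      funext i
      have h1 := congrFun h0 i
      rw [hP2] at h1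
      simpa using h1
    have hZ2ne : Z2 ≠ 0 := by
      intro h0
      apply hj0
      have h1 := congrFun h0 (Sum.inl j0)
      rw [hZ2] at h1
      simpa using h1
    have hdep : ∃ r : E2, r ≠ 0 ∧ P2 = fun i => r * Z2 i := by
      rw [li_iff] at hli1
      push Not at hli1
      obtain ⟨α, β, h0, hne⟩ := hli1
      have hα : α ≠ 0 := by
        rintro rfl
        rw [zero_smul, zero_add] at h0
        exact (smul_eq_zero.1 h0).elim (fun h => hne rfl h) hZ2ne
      have hβ : β ≠ 0 := by
        rintro rfl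
        rw [zero_smul, add_zero] at h0
        exact (smul_eq_zero.1 h0).elim hα hP2ne
      refine ⟨-(β / α), neg_ne_zero.2 (div_ne_zero hβ hα), ?_⟩
      funext i
      have h1 := congrFun h0 i
      simp only [Pi.add_apply, Pi.smul_apply, smul_eq_mul, Pi.zero_apply] at h1
      field_simp
      linear_combination h1
    obtain ⟨r, hr, hPZ⟩ := hdep
    rw [hPZ, (hCYC k (κ ⊕ μ) E2).1 Z2 r hr, sub_self, add_zero]
    exact zero_mem _

end Pool.Agent.Z15P.T2h62.H15
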