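import Pool.Agent.Z15P.Z15.H.Stm2

/-!
Reduction of elements and vectors at the places of a function field over an algebraically closed field.
-/

set_option autoImplicit false

open FF FF.PP MvPolynomial

namespace Pool.Agent.Z15P.T2h62.H15

section

variable {k : Type} [Field k] [IsAlgClosed k] [Infinite k] {E : Type} [Field E] [Algebra k E] [IsFF k E]
  (t : Place k E)

include t in
theorem rf_surj (x : t.RF) : ∃ c : k, algebraMap k t.RF c = x :=
  (IsAlgClosed.algebraMap_bijective_of_isIntegral (k := k) (K := t.RF)).2 x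

/-- the value of a regular element at the place -/
noncomputable def ev (x : E) : k := (rf_surj t (t.red x)).choose

theorem ev_spec (x : E) : algebraMap k t.RF (ev t x) = t.red x := (rf_surj t (t.red x)).choose_spec

variable {t}

theorem ev_unique {x : E} {c : k} (h : t.red x = algebraMap k t.RF c) : ev t x = c :=
  (algebraMap k t.RF).injective (by rw [ev_spec, h])

theorem ev_iff {x : E} {c : k} : t.red x = algebraMap k t.RF c ↔ ev t x = c :=
  ⟨ev_unique, fun h => by rw [← h, ev_spec]⟩

theorem ev_zero : ev t 0 = 0 := ev_unique (by rw [t.red_zero, map_zero])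

theorem ev_one : ev t 1 = 1 := ev_unique (by rw [t.red_one, map_one])

theorem ev_const (c : k) : ev t (algebraMap k E c) = c := ev_unique rfl

theorem ev_add {x y : E} (hx : t.Reg x) (hy : t.Reg y) : ev t (x + y) = ev t x + ev t y :=
  ev_unique (by rw [t.red_add hx hy, map_add, ev_spec, ev_spec])

theorem ev_mul {x y : E} (hx : t.Reg x) (hy : t.Reg y) : ev t (x * y) = ev t x * ev t y :=
  ev_unique (by rw [t.red_mul hx hy, map_mul, ev_spec, ev_spec])

theorem ev_sub {x y : E} (hx : t.Reg x) (hy : t.Reg y) : ev t (x - y) = ev t x - ev t y :=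
  ev_unique (by rw [t.red_sub hx hy, map_sub, ev_spec, ev_spec])

omit [IsAlgClosed k] [Infinite k] [IsFF k E] in
theorem reg_sub {x y : E} (hx : t.Reg x) (hy : t.Reg y) : t.Reg (x - y) := by
  rw [sub_eq_add_neg]
  exact t.reg_add hx (t.reg_neg hy)

theorem reg_inv_of_ev {x : E} (hx : t.Reg x) (h : ev t x ≠ 0) : x ≠ 0 ∧ t.ord x = 0 ∧ t.Reg x⁻¹ := by
  have h1 : t.red x ≠ 0 := by
    rw [← ev_spec]
    exact (map_ne_zero_iff _ (algebraMap k t.RF).injective).2 h
  have h2 : x ≠ 0 := by
    rintro rfl
    exact h1 t.red_zero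
  have h3 : t.ord x = 0 := by
    have h4 := (t.reg_iff h2).1 hx
    by_contra h5
    exact h1 ((t.red_eq_zero_iff hx).2 (Or.inr (by omega)))
  exact ⟨h2, h3, Or.inr (by rw [t.ord_inv, h3, neg_zero])⟩

theorem ev_ne_zero {x : E} (h0 : x ≠ 0) (h : t.ord x = 0) : ev t x ≠ 0 := by
  intro h1
  have h2 := ev_spec t x
  rw [h1, map_zero] at h2
  exact t.red_ne_zero h0 h h2.symm

omit [IsAlgClosed k] [Infinite k] [IsFF k E] in
/-- a representative with an entry equal to one -/
theorem exists_prim {κ : Type} [Finite κ] (t : Place k E) {e : κ → E} (he : e ≠ 0) :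
    ∃ j, e j ≠ 0 ∧ ∀ i, t.Reg ((e j)⁻¹ * e i) := by
  classical
  have hne : ∃ i, e i ≠ 0 := by
    by_contra h
    push Not at h
    exact he (funext h)
  obtain ⟨i0, hi0⟩ := hne
  have := Fintype.ofFinite κ
  obtain ⟨j, hj, hmin⟩ := Finset.exists_min_image (Finset.univ.filter fun i => e i ≠ 0)
    (fun i => t.ord (e i)) ⟨i0, by simp [hi0]⟩
  rw [Finset.mem_filter] at hj
  refine ⟨j, hj.2, fun i => ?_⟩
  by_cases hi : e i = 0
  · rw [hi, mul_zero]; exact t.reg_zero
  · right
    rw [t.ord_mul (inv_ne_zero hj.2) hi, t.ord_inv]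
    have := hmin i (by simp [hi])
    omega

theorem reg_aeval {κ : Type} {e : κ → E} (h : ∀ i, t.Reg (e i)) (G : MvPolynomial κ k) :
    t.Reg (aeval e G) ∧ ev t (aeval e G) = eval (fun i => ev t (e i)) G := by
  induction G using MvPolynomial.induction_on with
  | C a =>
    rw [aeval_C, eval_C]
    exact ⟨t.reg_const a, ev_const a⟩
  | add p q hp hq =>
    rw [map_add, map_add, ev_add hp.1 hq.1, hp.2, hq.2]
    exact ⟨t.reg_add hp.1 hq.1, rfl⟩
  | mul_X p i hp =>
    rw [map_mul, map_mul, aeval_X, eval_X, ev_mul hp.1 (h i), hp.2]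
    exact ⟨t.reg_mul hp.1 (h i), rfl⟩

/-- SPEC -/
theorem t_SPEC : Pool.Agent.Z15P.Z15.H.Stm.T_SPEC := by
  intro k _ _ _ κ E _ _ _ _ t e he
  refine ⟨?_, fun a ha G => ?_⟩
  · obtain ⟨j, hj, hr⟩ := exists_prim t he
    refine ⟨(e j)⁻¹, fun i => ev t ((e j)⁻¹ * e i), inv_ne_zero hj, ?_, fun i => ⟨hr i, (ev_spec t _).symm⟩⟩
    intro h0
    have := congrFun h0 j
    simp only [inv_mul_cancel₀ hj, ev_one, Pi.zero_apply] at this
    exact one_ne_zero this
  · have h1 := reg_aeval (fun i => (ha i).1) G
    refine ⟨h1.1, ?_⟩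
    have h2 : (fun i => ev t (e i)) = a := funext fun i => ev_unique (ha i).2
    rw [ev_iff, h1.2, h2]

end

/-! ### Linear algebra -/

section Lin

variable {k : Type} [Field k] {ι : Type}

theorem li_iff {a b : ι → k} : LinearIndependent k ![a, b] ↔ ∀ α β : k, α • a + β • b = 0 → α = 0 ∧ β = 0 :=
  LinearIndependent.pair_iff

theorem li_of_minor {a b : ι → k} {i j : ι} (h : a i * b j - a j * b i ≠ 0) : LinearIndependent k ![a, b] := by
  rw [li_iff]
  intro α β h0
  have hi := congrFun h0 i
  have hj := congrFun h0 j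
  simp only [Pi.add_apply, Pi.smul_apply, smul_eq_mul, Pi.zero_apply] at hi hj
  constructor
  · have : α * (a i * b j - a j * b i) = 0 := by linear_combination b j * hi - b i * hj
    exact (mul_eq_zero.1 this).resolve_right h
  · have : β * (a i * b j - a j * b i) = 0 := by linear_combination a i * hj - a j * hi
    exact (mul_eq_zero.1 this).resolve_right h

theorem exists_minor {a b : ι → k} (h : LinearIndependent k ![a, b]) : ∃ i j, a i * b j - a j * b i ≠ 0 := by
  by_contra hc
  push Not at hc
  rw [li_iff] at h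
  have ha : a ≠ 0 := by
    intro h0
    have := h 1 0 (by rw [h0]; simp)
    exact one_ne_zero this.1
  obtain ⟨i, hi⟩ : ∃ i, a i ≠ 0 := by
    by_contra h1
    push Not at h1
    exact ha (funext h1)
  have := h (-(b i)) (a i) (by
    ext j
    have := hc i j
    simp only [Pi.add_apply, Pi.smul_apply, smul_eq_mul, Pi.zero_apply]
    linear_combination this)
  exact hi this.2

/-- the line depends only on the span -/
theorem line_eq {a b a' b' : ι → k} {x y z w : k} (ha : a' = x • a + y • b) (hb : b' = z • a + w • b)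
    (hD : x * w - y * z ≠ 0) : Pool.Agent.Z15P.Z15.H.line a' b' = Pool.Agent.Z15P.Z15.H.line a b := by
  unfold Pool.Agent.Z15P.Z15.H.line
  congr 1
  ext G
  simp only [Set.mem_ofPred_eq]
  constructor
  · intro h n α β
    have h1 := h n ((α * w - β * z) / (x * w - y * z)) ((β * x - α * y) / (x * w - y * z))
    have h2 : (fun i => (α * w - β * z) / (x * w - y * z) * a' i + (β * x - α * y) / (x * w - y * z) * b' i) =
        fun i => α * a i + β * b i := by
      funext i
      rw [ha, hb]
      simp only [Pi.add_apply, Pi.smul_apply, smul_eq_mul]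
      rw [div_mul_eq_mul_div, div_mul_eq_mul_div, ← add_div, div_eq_iff hD]
      ring
    rwa [h2] at h1
  · intro h n α β
    have h1 := h n (α * x + β * z) (α * y + β * w)
    have h2 : (fun i => (α * x + β * z) * a i + (α * y + β * w) * b i) = fun i => α * a' i + β * b' i := by
      funext i
      rw [ha, hb]
      simp only [Pi.add_apply, Pi.smul_apply, smul_eq_mul]
      ring
    rwa [h2] at h1

theorem line_eq_of_mem {a b a' b' : ι → k} (ha : a' ∈ Submodule.span k {a, b})
    (hb : b' ∈ Submodule.span k {a, b}) (h : LinearIndependent k ![a', b']) :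
    Pool.Agent.Z15P.Z15.H.line a' b' = Pool.Agent.Z15P.Z15.H.line a b := by
  rw [Submodule.mem_span_pair] at ha hb
  obtain ⟨x, y, ha⟩ := ha
  obtain ⟨z, w, hb⟩ := hb
  refine line_eq ha.symm hb.symm ?_
  intro hD
  rw [li_iff] at h
  have h1 := h w (-y) (by
    rw [← ha, ← hb]
    have : w • (x • a + y • b) + -y • (z • a + w • b) = (x * w - y * z) • a := by module
    rw [this, hD, zero_smul])
  have h2 := h (-z) x (by
    rw [← ha, ← hb]
    have : -z • (x • a + y • b) + x • (z • a + w • b) = (x * w - y * z) • b := by module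
    rw [this, hD, zero_smul])
  have ha0 : a' = 0 := by
    rw [← ha, h2.2, neg_eq_zero.1 h1.2, zero_smul, zero_smul, add_zero]
  have := h 1 0 (by rw [ha0]; simp)
  exact one_ne_zero this.1

end Lin

end Pool.Agent.Z15P.T2h62.H15
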