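import Pool.Agent.Z15P.T2h62.H15.LIM

/-!
Limits of families of lines: existence and uniqueness. The degree of a principal divisor.
-/

set_option autoImplicit false

open FF FF.PP MvPolynomial Pool.Agent.Z15P.Z15.H

namespace Pool.Agent.Z15P.T2h62.H15

section

variable {k : Type} [Field k] [IsAlgClosed k] [Infinite k] {E : Type} [Field E] [Algebra k E] [IsFF k E]
  {ι : Type}

theorem exists_lim [Finite ι] (t : Place k E) {A B : ι → E} (h : LinearIndependent E ![A, B]) :
    ∃ a b : ι → k, IsLim t A B a b := by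
  have hli := li_iff.1 h
  have hA : A ≠ 0 := by
    intro h0
    exact one_ne_zero (hli 1 0 (by rw [h0]; simp)).1
  obtain ⟨j, hj, hrA⟩ := exists_prim t hA
  set B1 : ι → E := fun i => B i - B j * ((A j)⁻¹ * A i) with hB1
  have hB1ne : B1 ≠ 0 := by
    intro h0
    have := hli (-(B j * (A j)⁻¹)) 1 (by
      funext i
      have h1 := congrFun h0 i
      simp only [hB1, Pi.zero_apply] at h1
      simp only [Pi.add_apply, Pi.smul_apply, smul_eq_mul, Pi.zero_apply]
      linear_combination h1)
    exact one_ne_zero this.2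
  obtain ⟨l, hl, hrB⟩ := exists_prim t hB1ne
  have hB1j : B1 j = 0 := by
    simp only [hB1]
    rw [inv_mul_cancel₀ hj]
    ring
  refine ⟨fun i => ev t ((A j)⁻¹ * A i), fun i => ev t ((B1 l)⁻¹ * B1 i), ?_,
    (A j)⁻¹, 0, -((B1 l)⁻¹ * B j * (A j)⁻¹), (B1 l)⁻¹, ?_, fun i => ?_, fun i => ?_⟩
  · refine li_of_minor (i := j) (j := l) ?_
    rw [inv_mul_cancel₀ hj, inv_mul_cancel₀ hl, hB1j, mul_zero, ev_zero, ev_one, mul_zero, sub_zero,
      mul_one]
    exact one_ne_zero
  · rw [zero_mul, sub_zero]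
    exact mul_ne_zero (inv_ne_zero hj) (inv_ne_zero hl)
  · rw [zero_mul, add_zero, ev_spec]
    exact ⟨hrA i, rfl⟩
  · have h1 : -((B1 l)⁻¹ * B j * (A j)⁻¹) * A i + (B1 l)⁻¹ * B i = (B1 l)⁻¹ * B1 i := by
      simp only [hB1]
      ring
    rw [h1, ev_spec]
    exact ⟨hrB i, rfl⟩

omit [IsAlgClosed k] [Infinite k] [IsFF k E] in
theorem reg_of_ord {t : Place k E} {x : E} (h : t.ord x = 0) : t.Reg x := Or.inr h.ge

/-- LOC -/
theorem t_LOC : Stm.T_LOC := by
  intro k _ _ _ ι E _ _ _ _ A B h
  refine ⟨fun t => exists_lim t h, ?_, ?_⟩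
  · classical
    obtain ⟨i, j, hij⟩ := exists_minor h
    set m : E := A i * B j - A j * B i with hm
    refine ⟨(finite_support (k := k) m).toFinset ∪ (Finset.univ.biUnion fun i =>
      (finite_support (k := k) (A i)).toFinset ∪ (finite_support (k := k) (B i)).toFinset), fun t ht => ?_⟩
    simp only [Finset.mem_union, Finset.mem_biUnion, Finset.mem_univ, true_and, Set.Finite.mem_toFinset,
      Set.mem_ofPred_eq, not_or, not_exists, not_not] at ht
    have hA : ∀ i, t.Reg (A i) := fun i => reg_of_ord (ht.2 i).1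
    have hB : ∀ i, t.Reg (B i) := fun i => reg_of_ord (ht.2 i).2
    refine ⟨fun i => ev t (A i), fun i => ev t (B i), ?_, fun i => ⟨hA i, (ev_spec t _).symm⟩,
      fun i => ⟨hB i, (ev_spec t _).symm⟩⟩
    refine li_of_minor (i := i) (j := j) ?_
    rw [← ev_mul (hA i) (hB j), ← ev_mul (hA j) (hB i), ← ev_sub (t.reg_mul (hA i) (hB j))
      (t.reg_mul (hA j) (hB i))]
    exact ev_ne_zero hij ht.1
  · intro t a b a' b' h1 h2
    refine line_eq_of_mem ?_ ?_ h1.1
    · obtain ⟨-, p, q, r, s, -, hA, -⟩ := h1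
      exact lim_mem h2 hA
    · obtain ⟨-, p, q, r, s, -, -, hB⟩ := h1
      exact lim_mem h2 hB

/-- DEG -/
theorem t_DEG : Stm.T_DEG := by
  intro k _ _ _ E _ _ _ τ hτ
  classical
  have hdeg : ∀ t : Place k E, t.deg = 1 := by
    intro t
    unfold Place.deg
    have e : k ≃ₗ[k] t.RF := LinearEquiv.ofBijective (Algebra.linearMap k t.RF)
      (IsAlgClosed.algebraMap_bijective_of_isIntegral (k := k) (K := t.RF))
    rw [← e.finrank_eq, Module.finrank_self]
  obtain ⟨S, hS, -, hS3⟩ := zeros (k := k) (f := τ) hτ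
  obtain ⟨S', hS', -⟩ := poles (k := k) (f := τ) hτ
  refine ⟨S, S', hS, hS', ?_, ?_⟩
  · by_contra hne
    rw [Finset.not_nonempty_iff_eq_empty] at hne
    rw [hne, Finset.sum_empty] at hS3
    have := IsFF.finite (k := k) hτ
    have h1 : 0 < Module.finrank (IntermediateField.adjoin k {τ}) E := Module.finrank_pos
    omega
  · have h0 := ddeg_divisor (k := k) τ
    have hdisj : Disjoint S S' := by
      rw [Finset.disjoint_left]
      intro t h1 h2
      rw [hS] at h1
      rw [hS'] at h2
      omega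
    rw [← Finset.sum_union hdisj, ← h0]
    unfold ddeg
    rw [Finsupp.sum_of_support_subset (s := S ∪ S')]
    · refine Finset.sum_congr rfl fun t _ => ?_
      rw [hdeg, divisor_apply]
      simp
    · intro t ht
      rw [Finsupp.mem_support_iff, divisor_apply] at ht
      rw [Finset.mem_union, hS, hS']
      omega
    · intro t _
      simp

end

end Pool.Agent.Z15P.T2h62.H15
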